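import Pool.Agent.H530R3.Eth.Final
import Pool.Agent.H274R3.ETH.SDefs

/-!
# The randomized strong exponential time hypothesis
-/

set_option autoImplicit false

namespace Pool.Agent.H530R3.Eth

open Pool.Agent.NPC Pool.Agent.H274R3.ETH MeasureTheory
open Pool.Agent.H530R3.Thr (Par par Lang lam biasedOracle words mem_words card_words blk spot mm jj
  rr bb u_mm u_jj u_rr p_bb p_block p_un1 p_un2 par_spec major ae_finite)
open Pool.Agent.H620R2.Gauge (Alg Oracle IsFP)

theorem mainG (p : ℕ → unitInterval) (h : ¬ Summable (lam p)) (M : Alg) (Tb lb : ℕ → ℕ → ℕ) (m0 : ℕ)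
    (hm0 : ∀ n ≥ m0, ∀ m ≤ 8 * n + 10, 6 * Tb n m ≤ 2 ^ n) :
    biasedOracle p {A | ∀ (n : ℕ) (y : List Bool), y.length ≤ 8 * n + 10 →
      AMright M A (Ver A) (Tb n y.length) n (lb n y.length) [] y} = 0 := by
  classical
  set P := par p with hP
  set T : ℕ → ℕ := fun N => Tb (P.m N) (P.u N).length with hT
  set l : ℕ → ℕ := fun N => lb (P.m N) (P.u N).length with hl
  set x : ℕ → List Bool := fun N => inst [] (P.m N) (P.u N) with hx
  set Acc : ℕ → Set Oracle := fun N =>
    {A | 12 ≤ N → 2 * 2 ^ l N ≤ 3 * cnt (l N) (Mer M A (T N) (x N))} with hAcc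
  set Rej : ℕ → Set Oracle := fun N =>
    {A | 12 ≤ N → 3 * cnt (l N) (Mer M A (T N) (x N)) ≤ 2 ^ l N} with hRej
  have hloc : ∀ N (A A' : Oracle), (∀ z ∈ {z : List Bool | z.length ≤ T N}, A z = A' z) →
      cnt (l N) (Mer M A (T N) (x N)) = cnt (l N) (Mer M A' (T N) (x N)) := fun N A A' hAA =>
    mer_congr M (T N) (x N) hAA (l N)
  have hm : ∀ N ≥ 12, N ≤ 4 * P.m N + 3 := fun N hN => (par_spec p hN).1
  have key := null2 p h Acc Rej (fun N => 3 * T N) T
    (fun N A A' hAA => by simp only [hAcc, Set.mem_ofPred_eq, hloc N A A' hAA])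
    (fun N A A' hAA => by simp only [hRej, Set.mem_ofPred_eq, hloc N A A' hAA])
    (4 * m0 + 12) (by omega) ?_ ?_
  · refine measure_mono_null ?_ key
    intro A hA N
    by_cases hN : 12 ≤ N
    · have h1 := hm N hN
      have h2 := P.length_u N
      have h3 : (P.u N).length ≤ 8 * P.m N + 10 := by omega
      obtain ⟨_, _, h5, h6⟩ := hA (P.m N) (P.u N) h3
      have h7 : Sat (Ver A) (P.m N) (P.u N) ↔ P.u N ∈ Lang A := sat_Ver (by
        unfold Par.u
        rw [Pool.Agent.H530R3.Thr.mm_code])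
      rw [h7] at h5 h6
      exact ⟨fun h8 _ => h5 h8, fun h8 _ => h6 h8⟩
    · exact ⟨fun _ h8 => absurd h8 hN, fun _ h8 => absurd h8 hN⟩
  · intro N hN A hA
    have hN12 : 12 ≤ N := by omega
    have h1 := sensM M A (T N) (l N) (x N) (words (P.m N)) (fun w => blk (P.j N) (P.r N) w)
      (fun w hw w' hw' hne => Pool.Agent.H530R3.Thr.disjoint_blk
        ((mem_words.1 hw).trans (mem_words.1 hw').symm) hne) (hA hN12)
    refine le_trans (Finset.card_le_card ?_) h1
    intro w hw
    rw [Finset.mem_filter] at hw ⊢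
    obtain ⟨h2, A', h3, h4⟩ := hw
    exact ⟨h2, A', h3, h4 hN12⟩
  · intro N hN
    have h1 := hm N (by omega)
    have h3 := P.length_u N
    have h2 := hm0 (P.m N) (by omega) (P.u N).length (by omega)
    change 2 * (3 * Tb (P.m N) (P.u N).length) ≤ 2 ^ P.m N
    omega

theorem timeS_le (c d : ℕ) : ∃ m0 : ℕ, ∀ n ≥ m0, ∀ m ≤ 8 * n + 10, 6 * tS c d n m ≤ 2 ^ n := by
  obtain ⟨m0, hm0⟩ := time_le (5 * c) d
  refine ⟨m0, fun n hn m hm => le_trans (Nat.mul_le_mul_left _ ?_) (hm0 n hn)⟩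
  unfold tS
  refine Nat.mul_le_mul_right _ ?_
  rw [pow_mul]
  refine Nat.pow_le_pow_left ?_ c
  have e : (n + 2) ^ 5 = n ^ 5 + 10 * n ^ 4 + 40 * n ^ 3 + 80 * n ^ 2 + 80 * n + 32 := by ring
  rw [e]
  omega

/-- The uniform Arthur–Merlin strong exponential time hypothesis fails relative to `A`, for instances
of any length: for every `V` in `FP^A` there is some `d` such that the unsolvable instances `y` with
`n` variables are recognised by a (uniform) Arthur–Merlin algorithm in time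
`T = 2 ^ (n - n / (d + 1))` times a power of `n + |y| + 2`, with `T` random bits. -/
def UAMSFails (A : Oracle) : Prop :=
  ∀ V : List Bool → List Bool, IsFP A V → ∃ (d c : ℕ) (M : Alg),
    ∀ (n : ℕ) (y : List Bool), AMright M A V (tS c d n y.length) n (tS c d n y.length) [] y

theorem RSETHFails.uams {A : Oracle} (hA : RSETHFails A) : UAMSFails A := by
  intro V hV
  obtain ⟨d, c, M, hM⟩ := hA V hV
  obtain ⟨M', hM'⟩ := exists_am M
  exact ⟨d, c, M', fun n y => hM' A V _ _ n y le_rfl (hM n y)⟩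

theorem divergentS (p : ℕ → unitInterval) (h : ¬ Summable (lam p)) :
    ∀ᵐ A ∂(biasedOracle p), ¬ UAMSFails A := by
  have hc : Countable Alg := Pool.Agent.H620R2.Gauge.Alg.countable
  have h1 : ∀ᵐ A ∂(biasedOracle p), ∀ (M : Alg) (c d : ℕ),
      ¬ ∀ (n : ℕ) (y : List Bool), y.length ≤ 8 * n + 10 →
      AMright M A (Ver A) (tS c d n y.length) n (tS c d n y.length) [] y := by
    rw [ae_all_iff]; intro M
    rw [ae_all_iff]; intro c
    rw [ae_all_iff]; intro d
    rw [ae_iff]
    simp only [not_not]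
    obtain ⟨m0, hm0⟩ := timeS_le c d
    exact mainG p h M (fun n m => tS c d n m) (fun n m => tS c d n m) m0 hm0
  filter_upwards [h1] with A hA hU
  obtain ⟨d, c, M, hM⟩ := hU (Ver A) (isFP_Ver A)
  exact hA M c d fun n y _ => hM n y

theorem divS (p : ℕ → unitInterval) (h : ¬ Summable (lam p)) :
    ∀ᵐ A ∂(biasedOracle p), ¬ RSETHFails A :=
  (divergentS p h).mono fun _ hA h1 => hA (RSETHFails.uams h1)

theorem rsethFails_of {A B : Oracle} (h : {x : List Bool | A x ≠ B x}.Finite)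
    (hB : RSETHFails B) : RSETHFails A := by
  intro V hV
  obtain ⟨d, c, M, hM⟩ := hB V (isFP_var (finite_symm h) hV)
  obtain ⟨M', hM'⟩ := exists_corr h M
  refine ⟨d, c, M', fun n y => ?_⟩
  have e : ∀ T r, Right M' A V T n y r ↔ Right M B V T n y r := by
    intro T r
    unfold Right
    rw [hM']
  exact (hM n y).trans (Nat.mul_le_mul_left _ (cnt_mono fun r hr => (e _ r).2 hr))

theorem rsethFails_iff {A B : Oracle} (h : {x : List Bool | A x ≠ B x}.Finite) :
    RSETHFails A ↔ RSETHFails B := ⟨rsethFails_of (finite_symm h), rsethFails_of h⟩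

end Pool.Agent.H530R3.Eth
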